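import Pool.Agent.Q5.Helly.Defs

set_option autoImplicit false

/-!
# The characters of a diagonalizable group

The character group is generated by the coordinates, and a Zariski closed subgroup is the common
kernel of the characters that are trivial on it.
-/

namespace Q5.Helly

variable {K : Type*} [Field K] {N : ℕ}

/-- The coordinate characters. -/
def coord (G : Subgroup (Diag K N)) (i : Fin N) : G →* Kˣ where
  toFun g := g.1 i
  map_one' := rfl
  map_mul' _ _ := rfl

theorem coord_apply (G : Subgroup (Diag K N)) (i : Fin N) (g : G) : coord G i g = g.1 i := rfl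

/-- The character given by a monomial. -/
def mono (G : Subgroup (Diag K N)) (m : (Fin N ⊕ Fin N) →₀ ℕ) : G →* Kˣ :=
  (∏ i, coord G i ^ m (Sum.inl i)) * (∏ i, coord G i ^ m (Sum.inr i))⁻¹

theorem eval_eq (G : Subgroup (Diag K N)) (P : MvPolynomial (Fin N ⊕ Fin N) K) (g : G) :
    MvPolynomial.eval (pt g.1) P = ∑ m ∈ P.support, P.coeff m * (mono G m g : K) := by
  rw [MvPolynomial.eval_eq']
  apply Finset.sum_congr rfl
  intro m _
  congr 1
  rw [Fintype.prod_sum_type]
  simp [mono, coord_apply, Units.coe_prod, pt]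

theorem isCharacter_coord (G : Subgroup (Diag K N)) (i : Fin N) : IsCharacter G (coord G i) := by
  refine ⟨map_mul _, MvPolynomial.X (Sum.inl i), fun g => ?_⟩
  simp [coord_apply, pt]

/-- The coordinate characters as functions. -/
def gens (G : Subgroup (Diag K N)) : Set (G → Kˣ) := Set.range (fun i => (coord G i : G → Kˣ))

theorem mono_mem_closure (G : Subgroup (Diag K N)) (m : (Fin N ⊕ Fin N) →₀ ℕ) :
    (mono G m : G → Kˣ) ∈ Subgroup.closure (gens G) := by
  have h : ∀ i, (coord G i : G → Kˣ) ∈ Subgroup.closure (gens G) :=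
    fun i => Subgroup.subset_closure ⟨i, rfl⟩
  have e : (mono G m : G → Kˣ) = (∏ i, (coord G i : G → Kˣ) ^ m (Sum.inl i)) *
      (∏ i, (coord G i : G → Kˣ) ^ m (Sum.inr i))⁻¹ := by
    funext g
    simp [mono, Finset.prod_apply]
  rw [e]
  exact mul_mem (Subgroup.prod_mem _ fun i _ => Subgroup.pow_mem _ (h i) _)
    (inv_mem (Subgroup.prod_mem _ fun i _ => Subgroup.pow_mem _ (h i) _))

theorem closure_gens_le (G : Subgroup (Diag K N)) : Subgroup.closure (gens G) ≤ X G := by
  rw [Subgroup.closure_le]
  rintro _ ⟨i, rfl⟩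
  exact isCharacter_coord G i

/-- Every character is a monomial in the coordinates. -/
theorem X_eq (G : Subgroup (Diag K N)) : X G = Subgroup.closure (gens G) := by
  apply le_antisymm _ (closure_gens_le G)
  rintro χ0 ⟨hmul, P, hP⟩
  obtain ⟨χ, rfl⟩ : ∃ χ : G →* Kˣ, (χ : G → Kˣ) = χ0 := ⟨MonoidHom.mk' χ0 hmul, rfl⟩
  have hli := linearIndependent_monoidHom G K
  let cc : (G →* Kˣ) → (G →* K) := fun ψ => (Units.coeHom K).comp ψ
  have hinj : Function.Injective cc := by
    intro a b hab
    ext g
    have := DFunLike.congr_fun hab g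
    simpa [cc] using this
  have hmem : (cc χ : G → K) ∈ Submodule.span K
      ((fun f : G →* K => (f : G → K)) '' ((fun m => cc (mono G m)) '' (P.support : Set _))) := by
    have : (cc χ : G → K) = ∑ m ∈ P.support, P.coeff m • (cc (mono G m) : G → K) := by
      funext g
      have h1 := hP g
      rw [eval_eq] at h1
      simp only [Finset.sum_apply, Pi.smul_apply, smul_eq_mul]
      exact h1
    rw [this]
    refine Submodule.sum_mem _ fun m hm => Submodule.smul_mem _ _ (Submodule.subset_span ?_)
    exact ⟨cc (mono G m), ⟨m, hm, rfl⟩, rfl⟩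
  have h2 : cc χ ∈ (fun m => cc (mono G m)) '' (P.support : Set _) := by
    by_contra hcon
    exact hli.notMem_span_image hcon hmem
  obtain ⟨m, _, hm⟩ := h2
  rw [← hinj hm]
  exact mono_mem_closure G m

theorem mono_mem_X (G : Subgroup (Diag K N)) (m : (Fin N ⊕ Fin N) →₀ ℕ) :
    (mono G m : G → Kˣ) ∈ X G := closure_gens_le G (mono_mem_closure G m)

theorem exists_generatedBy (G : Subgroup (Diag K N)) : ∃ n, GeneratedBy G n :=
  ⟨_, (Set.finite_range (fun i => (coord G i : G → Kˣ))).toFinset, rfl, by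
    rw [Set.Finite.coe_toFinset, X_eq]
    rfl⟩

/-- A closed subgroup is cut out by the characters of `G` that are trivial on it. -/
theorem mem_of_forall_character {G H : Subgroup (Diag K N)} (hHG : H ≤ G)
    (hH : IsZariskiClosed (H : Set (Diag K N))) (x : G)
    (hx : ∀ χ ∈ X G, (∀ h : G, h.1 ∈ H → χ h = 1) → χ x = 1) : x.1 ∈ H := by
  classical
  obtain ⟨S, hS⟩ := hH
  have hmem : ∀ y : Diag K N, y ∈ H ↔ ∀ f ∈ S, MvPolynomial.eval (fun i => (y i : K)) f = 0 := by
    intro y
    rw [← SetLike.mem_coe, hS]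
    rfl
  rw [hmem]
  intro f hf
  -- the restrictions of the monomials to `H`
  let ι : H →* G := Subgroup.inclusion hHG
  let ψ : (Fin N →₀ ℕ) → (G →* Kˣ) := fun m => mono G (m.mapDomain Sum.inl)
  have hψ : ∀ (m : Fin N →₀ ℕ) (g : G), (ψ m g : K) = ∏ i, ((g.1 i : Kˣ) : K) ^ m i := by
    intro m g
    have h1 : ∀ i, (m.mapDomain (Sum.inl : Fin N → Fin N ⊕ Fin N)) (Sum.inl i) = m i :=
      fun i => Finsupp.mapDomain_apply Sum.inl_injective _ _
    have h2 : ∀ i, (m.mapDomain (Sum.inl : Fin N → Fin N ⊕ Fin N)) (Sum.inr i) = 0 := by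
      intro i
      apply Finsupp.mapDomain_of_notMem_range
      simp
    simp [ψ, mono, coord_apply, h1, h2]
  let v : (Fin N →₀ ℕ) → (H →* K) := fun m => (Units.coeHom K).comp ((ψ m).comp ι)
  -- equal restrictions give equal values at `x`
  have hval : ∀ a b, v a = v b → (ψ a x : K) = ψ b x := by
    intro a b hab
    have h1 : ((ψ a : G → Kˣ) * (ψ b : G → Kˣ)⁻¹) x = 1 := by
      apply hx _ (mul_mem (mono_mem_X G _) (inv_mem (mono_mem_X G _)))
      intro h hh
      have h2 := DFunLike.congr_fun hab (⟨h.1, hh⟩ : H)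
      have h3 : (ψ a h : K) = ψ b h := h2
      rw [Pi.mul_apply, Pi.inv_apply, Units.ext h3, mul_inv_cancel]
    rw [Pi.mul_apply, Pi.inv_apply, mul_inv_eq_one] at h1
    rw [h1]
  let F : (H →* K) → K := fun w => if h : ∃ a, v a = w then (ψ h.choose x : K) else 0
  have hF : ∀ a, F (v a) = ψ a x := by
    intro a
    have h : ∃ b, v b = v a := ⟨a, rfl⟩
    simp only [F, dif_pos h]
    exact hval _ _ h.choose_spec
  let l : (H →* K) →₀ K := ∑ m ∈ f.support, Finsupp.single (v m) (f.coeff m)
  have hl : l = 0 := by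
    refine linearIndependent_iff.mp (linearIndependent_monoidHom H K) l ?_
    simp only [l, map_sum, Finsupp.linearCombination_single]
    funext h
    have h1 := (hmem h.1).mp h.2 f hf
    rw [MvPolynomial.eval_eq'] at h1
    simp only [Finset.sum_apply, Pi.smul_apply, smul_eq_mul, Pi.zero_apply]
    rw [← h1]
    apply Finset.sum_congr rfl
    intro m _
    congr 1
    exact hψ m (ι h)
  have h2 := congrArg (Finsupp.linearCombination K F) hl
  simp only [l, map_sum, Finsupp.linearCombination_single, map_zero, hF, smul_eq_mul] at h2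
  rw [MvPolynomial.eval_eq', ← h2]
  apply Finset.sum_congr rfl
  intro m _
  rw [hψ]

end Q5.Helly
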