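import Mathlib

set_option autoImplicit false

/-!
# Diagonalizable groups, their character groups and their Helly dimension
-/

open scoped Pointwise

namespace Q5.Helly

/-- The diagonal group `(K^×)^N`. -/
def Diag (K : Type*) [Field K] (N : ℕ) : Type _ := Fin N → Kˣ

instance (K : Type*) [Field K] (N : ℕ) : CommGroup (Diag K N) :=
  inferInstanceAs (CommGroup (Fin N → Kˣ))

variable {K : Type*} [Field K] {N : ℕ}

/-- Zariski closed subsets of the diagonal group: the zero sets of sets of polynomials. -/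
def IsZariskiClosed (Z : Set (Diag K N)) : Prop :=
  ∃ S : Set (MvPolynomial (Fin N) K),
    Z = {x | ∀ f ∈ S, MvPolynomial.eval (fun i => (x i : K)) f = 0}

/-- The coordinates of a point of the diagonal group and their inverses. -/
def pt (x : Diag K N) : Fin N ⊕ Fin N → K :=
  Sum.elim (fun i => (x i : K)) (fun i => (x i : K)⁻¹)

/-- Regular maps from a subgroup of the diagonal group to `K^×`: the restrictions of polynomials in
the coordinates and their inverses, without zeros. -/
def IsRegular (G : Subgroup (Diag K N)) (f : G → Kˣ) : Prop :=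
  ∃ P : MvPolynomial (Fin N ⊕ Fin N) K, ∀ g : G, (f g : K) = MvPolynomial.eval (pt g.1) P

/-- The characters of `G`: the multiplicative maps `G → K^×` that are regular. -/
def IsCharacter (G : Subgroup (Diag K N)) (χ : G → Kˣ) : Prop :=
  (∀ g h, χ (g * h) = χ g * χ h) ∧ IsRegular G χ

theorem IsCharacter.mul {G : Subgroup (Diag K N)} {χ ψ : G → Kˣ}
    (hχ : IsCharacter G χ) (hψ : IsCharacter G ψ) : IsCharacter G (χ * ψ) := by
  obtain ⟨h1, P, hP⟩ := hχ
  obtain ⟨h2, Q, hQ⟩ := hψ
  refine ⟨fun g h => ?_, P * Q, fun g => by simp [hP g, hQ g]⟩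
  rw [Pi.mul_apply, Pi.mul_apply, Pi.mul_apply, h1, h2]
  exact mul_mul_mul_comm _ _ _ _

theorem IsCharacter.one (G : Subgroup (Diag K N)) : IsCharacter G 1 :=
  ⟨fun g h => by simp, 1, fun g => by simp⟩

theorem IsCharacter.inv {G : Subgroup (Diag K N)} {χ : G → Kˣ}
    (hχ : IsCharacter G χ) : IsCharacter G χ⁻¹ := by
  obtain ⟨h1, P, hP⟩ := hχ
  have h2 : ∀ g, χ g⁻¹ = (χ g)⁻¹ := fun g => map_inv (MonoidHom.mk' χ h1) g
  refine ⟨fun g h => ?_, MvPolynomial.rename Sum.swap P, fun g => ?_⟩
  · rw [Pi.inv_apply, Pi.inv_apply, Pi.inv_apply, h1, mul_inv]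
  · have h := hP g⁻¹
    rw [MvPolynomial.eval_rename]
    rw [h2] at h
    rw [Pi.inv_apply, h]
    congr 2
    funext i
    rcases i with i | i
    · show ((((g.1 i)⁻¹ : Kˣ)) : K) = ((g.1 i : Kˣ) : K)⁻¹
      simp
    · show (((g.1 i)⁻¹ : Kˣ) : K)⁻¹ = ((g.1 i : Kˣ) : K)
      simp

/-- The character group `X(G)`, with pointwise multiplication. -/
def X (G : Subgroup (Diag K N)) : Subgroup (G → Kˣ) where
  carrier := {χ | IsCharacter G χ}
  mul_mem' := IsCharacter.mul
  one_mem' := IsCharacter.one G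
  inv_mem' := IsCharacter.inv

/-- `X(G)` is generated by `n` elements. -/
def GeneratedBy (G : Subgroup (Diag K N)) (n : ℕ) : Prop :=
  ∃ S : Finset (G → Kˣ), S.card = n ∧ Subgroup.closure (S : Set (G → Kˣ)) = X G

/-- The minimal number of generators of `X(G)`. -/
noncomputable def rk (G : Subgroup (Diag K N)) : ℕ := sInf {n | GeneratedBy G n}

/-- A Zariski closed coset in `G`: a set `g H` with `g ∈ G` and `H ≤ G` a Zariski closed
subgroup. -/
def IsClosedCoset (G : Subgroup (Diag K N)) (C : Set (Diag K N)) : Prop :=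
  ∃ g ∈ G, ∃ H : Subgroup (Diag K N), H ≤ G ∧ IsZariskiClosed (H : Set (Diag K N)) ∧
    C = g • (H : Set (Diag K N))

/-- The Helly property of order `d`: whenever finitely many Zariski closed cosets in `G` have empty
intersection, some subfamily of at most `d` of them already has empty intersection. -/
def HellyProperty (G : Subgroup (Diag K N)) (d : ℕ) : Prop :=
  ∀ 𝓕 : Finset (Set (Diag K N)), (∀ C ∈ 𝓕, IsClosedCoset G C) → (⋂ C ∈ 𝓕, C) = ∅ →
    ∃ 𝓖 ⊆ 𝓕, 𝓖.card ≤ d ∧ (⋂ C ∈ 𝓖, C) = ∅

/-- The Helly dimension: the least positive integer `d` with the Helly property of order `d`. -/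
noncomputable def kappa (G : Subgroup (Diag K N)) : ℕ := sInf {d | 1 ≤ d ∧ HellyProperty G d}

end Q5.Helly
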