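import Mathlib

set_option autoImplicit false

namespace Q5.Helly

/-- Among more than `r` subgroups of `ℤ ^ r`, for each prime `q` one is redundant up to an index
prime to `q`. -/
theorem exists_index {r : ℕ} {ι : Type*} [DecidableEq ι] (s : Finset ι)
    (A : ι → Submodule ℤ (Fin r → ℤ)) (hs : r < s.card) {q : ℕ} (hq : q.Prime) :
    ∃ j ∈ s, ∃ n : ℤ, ¬ (q : ℤ) ∣ n ∧ ∀ x ∈ s.sup A, n • x ∈ (s.erase j).sup A := by
  classical
  set B := s.sup A with hB
  set I : Ideal ℤ := Ideal.span {(q : ℤ)} with hI
  have hne : (s.powerset.filter (fun t => B ≤ t.sup A ⊔ I • B)).Nonempty :=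
    ⟨s, Finset.mem_filter.mpr ⟨Finset.mem_powerset_self s, hB ▸ le_sup_left⟩⟩
  obtain ⟨t, ht, hmin⟩ := Finset.exists_min_image _ Finset.card hne
  simp only [Finset.mem_filter, Finset.mem_powerset] at ht hmin
  obtain ⟨hts, htB⟩ := ht
  -- `t` has at most `r` elements
  have hcard : t.card ≤ r := by
    have key : ∀ j : t, ∃ a ∈ A j, a ∉ (t.erase j).sup A ⊔ I • B := by
      rintro ⟨j, hj⟩
      by_contra hcon
      push Not at hcon
      have h1 : B ≤ (t.erase j).sup A ⊔ I • B := by
        refine htB.trans (sup_le ?_ le_sup_right)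
        rw [← Finset.insert_erase hj, Finset.sup_insert]
        refine sup_le ?_ ?_
        · rw [Finset.erase_insert_eq_erase, Finset.erase_idem]
          exact hcon
        · rw [Finset.erase_insert_eq_erase, Finset.erase_idem]
          exact le_sup_left
      have h2 := hmin (t.erase j) ⟨(Finset.erase_subset _ _).trans hts, h1⟩
      exact absurd (Finset.card_erase_lt_of_mem hj) (not_lt.mpr h2)
    choose a haA hanot using key
    have haB : ∀ j : t, a j ∈ B := fun j => (Finset.le_sup (f := A) (hts j.2)) (haA j)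
    by_contra hcon
    push Not at hcon
    have hk : Module.finrank ℤ B ≤ r := by
      have := Submodule.finrank_le B
      simpa using this
    let b := Module.finBasis ℤ B
    have : Fact q.Prime := ⟨hq⟩
    let v : t → (Fin (Module.finrank ℤ B) → ZMod q) := fun j i => ((b.repr ⟨a j, haB j⟩ i : ℤ) : ZMod q)
    have hv : ¬ LinearIndependent (ZMod q) v := by
      intro h
      have := h.fintype_card_le_finrank
      simp at this
      omega
    rw [Fintype.not_linearIndependent_iff] at hv
    obtain ⟨g, hg, j, hj⟩ := hv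
    -- lift the coefficients
    have hlift : ∀ x : ZMod q, ∃ n : ℤ, (n : ZMod q) = x := fun x => ⟨x.cast, by simp⟩
    choose c hc using fun j => hlift (g j)
    have hcj : ¬ (q : ℤ) ∣ c j := by
      rw [← ZMod.intCast_zmod_eq_zero_iff_dvd]
      rw [hc]
      exact hj
    have hsum : ∑ j, c j • a j ∈ I • B := by
      have h1 : ∀ i, (q : ℤ) ∣ b.repr (∑ j, c j • (⟨a j, haB j⟩ : B)) i := by
        intro i
        rw [← ZMod.intCast_zmod_eq_zero_iff_dvd]
        have h2 := congrFun hg i
        simp only [Finset.sum_apply, Pi.smul_apply, smul_eq_mul, Pi.zero_apply, v] at h2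
        rw [← h2, map_sum, Finsupp.finsetSum_apply, Int.cast_sum]
        apply Finset.sum_congr rfl
        intro x _
        rw [map_smul, Finsupp.smul_apply, smul_eq_mul, Int.cast_mul, hc]
      choose e he using h1
      have h3 : (∑ j, c j • (⟨a j, haB j⟩ : B)) = (q : ℤ) • ∑ i, e i • b i := by
        rw [← b.sum_repr (∑ j, c j • (⟨a j, haB j⟩ : B)), Finset.smul_sum]
        apply Finset.sum_congr rfl
        intro i _
        rw [he i, mul_smul]
      have h4 : ∑ j, c j • a j = ((∑ j, c j • (⟨a j, haB j⟩ : B) : B) : Fin r → ℤ) := by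
        simp
      rw [h4, h3, hI, Submodule.ideal_span_singleton_smul]
      exact Submodule.smul_mem_pointwise_smul _ _ _ (Submodule.coe_mem _)
    have hin : c j • a j ∈ (t.erase j).sup A ⊔ I • B := by
      have h5 : c j • a j = ∑ j, c j • a j - ∑ i ∈ Finset.univ.erase j, c i • a i := by
        rw [← Finset.add_sum_erase _ _ (Finset.mem_univ j)]
        abel
      rw [h5]
      refine Submodule.sub_mem _ (Submodule.mem_sup_right hsum) (Submodule.mem_sup_left ?_)
      refine Submodule.sum_mem _ fun i hi => Submodule.smul_mem _ _ ?_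
      have : (i : ι) ∈ t.erase j := by
        simp only [Finset.mem_erase]
        exact ⟨fun h => (Finset.mem_erase.mp hi).1 (Subtype.ext h), i.2⟩
      exact (Finset.le_sup (f := A) this) (haA i)
    have hqin : (q : ℤ) • a j ∈ (t.erase j).sup A ⊔ I • B := by
      apply Submodule.mem_sup_right
      rw [hI, Submodule.ideal_span_singleton_smul]
      exact Submodule.smul_mem_pointwise_smul _ _ _ (haB j)
    have hcop : IsCoprime (q : ℤ) (c j) :=
      (Int.prime_iff_natAbs_prime.mpr (by simpa using hq)).coprime_iff_not_dvd.mpr hcj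
    obtain ⟨u, w, huw⟩ := hcop
    apply hanot j
    have h6 : a j = u • ((q : ℤ) • a j) + w • (c j • a j) := by
      rw [smul_smul, smul_smul, ← add_smul, huw, one_smul]
    rw [h6]
    exact Submodule.add_mem _ (Submodule.smul_mem _ _ hqin) (Submodule.smul_mem _ _ hin)
  -- an index outside `t`
  obtain ⟨j, hjs, hjt⟩ : ∃ j ∈ s, j ∉ t := by
    by_contra hcon
    push Not at hcon
    exact absurd (Finset.card_le_card (fun j hj => hcon j hj)) (by omega)
  have hBj : B ≤ (s.erase j).sup A ⊔ I • B := by
    refine htB.trans (sup_le_sup_right (Finset.sup_mono ?_) _)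
    intro i hi
    exact Finset.mem_erase.mpr ⟨fun h => hjt (h ▸ hi), hts hi⟩
  have hfg : B.FG := IsNoetherian.noetherian B
  have hex := Submodule.exists_sub_one_mem_and_smul_le_of_fg_of_le_sup hfg (le_refl B) hBj
  obtain ⟨n, hn, hnB⟩ := hex
  refine ⟨j, hjs, n, ?_, ?_⟩
  · intro hdvd
    rw [hI, Ideal.mem_span_singleton] at hn
    have h7 : (q : ℤ) ∣ 1 := by
      have := dvd_sub hdvd hn
      simpa using this
    have h8 := Int.natAbs_dvd_natAbs.mpr h7
    simp at h8
    exact hq.one_lt.ne' h8
  · intro x hx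
    exact hnB (Submodule.smul_mem_pointwise_smul _ _ _ hx)

end Q5.Helly
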